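import Pool.Agent.W614.Dg.Trans

/-!
The question whether all infinite words generated by iterating dgsm's are in `GSPACE(log n)` is
equivalent to its restriction to dgsm's with two states and growth `O(n ^ (1 + ε))`, for every
`ε > 0`.
-/

namespace Pool.Agent.Results.MP_5d512e_lc.TwoStatesNearLinearGrowth

open Pool.Agent.H584R2.Dg Pool.Agent.W614.Dg

/-- Let `ε > 0`.

* Every infinite word `w` generated by iterating a non-erasing dgsm `τ` over a finite alphabet is
  obtained by applying a partial letter map `h`, erasing the letters where it is undefined, to an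
  infinite word `w'` generated by iterating a non-erasing dgsm `τ'` with exactly two states and
  growth `|τ'^n(a')| ≤ A n ^ (1 + ε)`; the `k`-th remaining letter has a position `P k` bounded by a
  polynomial in `k`.
* For every `s ≥ 0` with `s(m) = O(s(n))` for `m` polynomially bounded in `n`, if `w'` is in
  `GSPACE(s)`, then so is `w`. So all infinite words generated by iterating non-erasing dgsm's are
  in `GSPACE(s)` if and only if this holds for the dgsm's with exactly two states and growth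
  `O(n ^ (1 + ε))`.
* The functions `s(n) = (log n + 1) ^ j` have this property, for every `j`.
* In particular (`j = 1`): all infinite words generated by iterating non-erasing dgsm's are in
  `GSPACE(log n)` if and only if this holds for the dgsm's with exactly two states and growth
  `O(n ^ (1 + ε))`. -/
theorem result (ε : ℝ) (hε : 0 < ε) :
    (∀ (S : Type) [Finite S] (τ : Dgsm S) (a : S) (w : ℕ → S), τ.NonErasing → τ.IsLimit a w →
      ∃ (S' : Type) (_ : Finite S') (τ' : Dgsm S') (a' : S') (w' : ℕ → S') (h : S' → Option S)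
        (P : ℕ → ℕ) (B d : ℕ),
        Nat.card τ'.Q = 2 ∧ τ'.NonErasing ∧ τ'.IsLimit a' w' ∧
        (∃ A : ℝ, ∀ n : ℕ, 1 ≤ n →
          ((τ'.map^[n] [a']).length : ℝ) ≤ A * (n : ℝ) ^ (1 + ε)) ∧
        StrictMono P ∧ P 0 = 0 ∧ (∀ k, h (w' (P k)) = some (w k)) ∧
        (∀ k r, P k < r → r < P (k + 1) → h (w' r) = none) ∧
        (∀ k, P k + 1 ≤ B * (k + 1) ^ d) ∧
        ∀ s : ℕ → ℝ, (∀ n, 0 ≤ s n) →
          (∀ B d : ℕ, ∃ C : ℝ, ∀ n m : ℕ, 1 ≤ n → m ≤ B * n ^ d → s m ≤ C * s n) →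
          InSpace s w' → InSpace s w) ∧
    (∀ s : ℕ → ℝ, (∀ n, 0 ≤ s n) →
      (∀ B d : ℕ, ∃ C : ℝ, ∀ n m : ℕ, 1 ≤ n → m ≤ B * n ^ d → s m ≤ C * s n) →
      ((∀ (S : Type) [Finite S] (τ : Dgsm S) (a : S) (w : ℕ → S), τ.NonErasing →
          τ.IsLimit a w → InSpace s w) ↔
        ∀ (S : Type) [Finite S] (τ : Dgsm S) (a : S) (w : ℕ → S), τ.NonErasing →
          τ.IsLimit a w → Nat.card τ.Q = 2 →
          (∃ A : ℝ, ∀ n : ℕ, 1 ≤ n →
            ((τ.map^[n] [a]).length : ℝ) ≤ A * (n : ℝ) ^ (1 + ε)) → InSpace s w)) ∧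
    (∀ j B d : ℕ, ∃ C : ℝ, ∀ n m : ℕ, 1 ≤ n → m ≤ B * n ^ d →
      (Real.log m + 1) ^ j ≤ C * (Real.log n + 1) ^ j) ∧
    ((∀ (S : Type) [Finite S] (τ : Dgsm S) (a : S) (w : ℕ → S), τ.NonErasing →
        τ.IsLimit a w → InSpace (fun n => Real.log n + 1) w) ↔
      ∀ (S : Type) [Finite S] (τ : Dgsm S) (a : S) (w : ℕ → S), τ.NonErasing →
        τ.IsLimit a w → Nat.card τ.Q = 2 →
        (∃ A : ℝ, ∀ n : ℕ, 1 ≤ n →
          ((τ.map^[n] [a]).length : ℝ) ≤ A * (n : ℝ) ^ (1 + ε)) →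
        InSpace (fun n => Real.log n + 1) w) := by
  have hmain : ∀ s : ℕ → ℝ, (∀ n, 0 ≤ s n) →
      (∀ B d : ℕ, ∃ C : ℝ, ∀ n m : ℕ, 1 ≤ n → m ≤ B * n ^ d → s m ≤ C * s n) →
      ((∀ (S : Type) [Finite S] (τ : Dgsm S) (a : S) (w : ℕ → S), τ.NonErasing →
          τ.IsLimit a w → InSpace s w) ↔
        ∀ (S : Type) [Finite S] (τ : Dgsm S) (a : S) (w : ℕ → S), τ.NonErasing →
          τ.IsLimit a w → Nat.card τ.Q = 2 →
          (∃ A : ℝ, ∀ n : ℕ, 1 ≤ n →
            ((τ.map^[n] [a]).length : ℝ) ≤ A * (n : ℝ) ^ (1 + ε)) → InSpace s w) := by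
    intro s hs0 hs
    constructor
    · intro H S hS τ a w hne hw _ _
      exact H S τ a w hne hw
    · intro H S hS τ a w hne hw
      obtain ⟨S', hS', τ', a', w', h, P, B, d, hc, hne', hw', hg, hd, hB⟩ :=
        reduction hε τ hne a w hw
      exact inSpace_dec hd hB hs0 hs (H S' τ' a' w' hne' hw' hc hg)
  refine ⟨?_, hmain, ?_, ?_⟩
  · intro S hS τ a w hne hw
    obtain ⟨S', hS', τ', a', w', h, P, B, d, hc, hne', hw', hg, hd, hB⟩ :=
      reduction hε τ hne a w hw
    exact ⟨S', hS', τ', a', w', h, P, B, d, hc, hne', hw', hg, hd.mono, hd.zero, hd.some, hd.none,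
      hB, fun s hs0 hs hw => inSpace_dec hd hB hs0 hs hw⟩
  · exact polylog_poly
  · have := hmain (fun n => (Real.log n + 1)) log_nonneg' (by
      intro B d
      obtain ⟨C, -, hC⟩ := log_poly B d
      exact ⟨C, hC⟩)
    exact this

end Pool.Agent.Results.MP_5d512e_lc.TwoStatesNearLinearGrowth
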